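import Mathlib
import Pool.Agent.U762.DZ.Stm

/-!
Project DZ (helper762), package BLK (helper612): choice of the parameters, one block of `κ log |x|` steps.
-/

set_option autoImplicit false

namespace Pool.Agent.U612.DZB

open Finset MeasureTheory Filter Pool.Agent.U762.RP Pool.Agent.U762.DZ

lemma fac_nonneg {d : ℕ} {m : ℤ → ℤ} (hpos : ∀ j : ℤ, 0 ≤ j → j < d → 0 < m j) {η : ℝ}
    (hη : 0 < η) : ∀ j ∈ range d, 0 ≤ fac d m η j := by
  intro j hj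
  unfold fac
  have h1 : 0 < m (j : ℤ) := hpos j (by positivity) (by exact_mod_cast Finset.mem_range.1 hj)
  have h2 : (0 : ℝ) < (m (j : ℤ) : ℝ) := by exact_mod_cast h1
  positivity

lemma fac_le_bb {d : ℕ} {m : ℤ → ℤ} (hpos : ∀ j : ℤ, 0 ≤ j → j < d → 0 < m j) {η : ℝ}
    (hη : 0 < η) : ∀ j ∈ range d, fac d m η j ≤ bb d m η := by
  intro j hj
  have h1 := Finset.single_le_sum (f := fun j : ℕ => fac d m η j) (fac_nonneg hpos hη) hj
  unfold bb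
  linarith

lemma one_le_bb {d : ℕ} {m : ℤ → ℤ} (hpos : ∀ j : ℤ, 0 ≤ j → j < d → 0 < m j) {η : ℝ}
    (hη : 0 < η) : 1 ≤ bb d m η := by
  have h1 := Finset.sum_nonneg (f := fun j : ℕ => fac d m η j) (fac_nonneg hpos hη)
  unfold bb
  linarith

lemma pow_eq_exp {b : ℝ} (hb : 0 < b) (k : ℕ) : b ^ k = Real.exp (k * Real.log b) := by
  rw [Real.exp_nat_mul, Real.exp_log hb]

theorem t_BLK : S_WCd → S_GEO → S_BLK := by
  intro hWC hGEO d m r hR hprod δ hδ hδ'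
  obtain ⟨η, hη, hη1, hG⟩ := hGEO d m hR.two_le hR.pos hprod
  obtain ⟨z₀', h, hz₀', hh, hW⟩ := hWC d m r hR η hη
  obtain ⟨b, hb⟩ : ∃ b : ℝ, b = bb d m η := ⟨_, rfl⟩
  have hb1 : 1 ≤ b := by rw [hb]; exact one_le_bb hR.pos hη
  have hL : 0 ≤ Real.log b := Real.log_nonneg hb1
  have hd2 : (2 : ℝ) ≤ d := by exact_mod_cast hR.two_le
  have hD : 0 < Real.log d := Real.log_pos (by linarith)
  have hD2 : 0 < Real.log (2 * d) := Real.log_pos (by linarith)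
  obtain ⟨κ, hκ⟩ : ∃ κ : ℝ, κ = min (δ / (4 * Real.log d))
    (min (1 / (8 * (1 + Real.log b))) (1 / (2 * Real.log (2 * d)))) := ⟨_, rfl⟩
  have hκ0 : 0 < κ := by
    rw [hκ]
    refine lt_min (by positivity) (lt_min (by positivity) (by positivity))
  have hκ1 : κ * (4 * Real.log d) ≤ δ := by
    have : κ ≤ δ / (4 * Real.log d) := by rw [hκ]; exact min_le_left _ _
    rwa [le_div_iff₀ (by positivity)] at this
  have hκ2 : κ * Real.log b ≤ 1 / 8 := by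
    have : κ ≤ 1 / (8 * (1 + Real.log b)) := by
      rw [hκ]; exact (min_le_right _ _).trans (min_le_left _ _)
    rw [le_div_iff₀ (by positivity)] at this
    nlinarith
  have hκ3 : κ * Real.log (2 * d) ≤ 1 / 2 := by
    have : κ ≤ 1 / (2 * Real.log (2 * d)) := by
      rw [hκ]; exact (min_le_right _ _).trans (min_le_right _ _)
    rw [le_div_iff₀ (by positivity)] at this
    linarith
  obtain ⟨A₀, hA₀, hA⟩ := hG κ hκ0
  refine ⟨2 * A₀, κ, by linarith, hκ0, ?_⟩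
  intro A M₀ hAA
  obtain ⟨γ, ℓ₀, hγ, hγ1, hℓ₀, hAℓ, hg⟩ := hA (A / 2) (by linarith)
  have hA0 : 0 < A := by linarith
  obtain ⟨ℓ₁, hℓ₁⟩ : ∃ ℓ₁ : ℝ, ℓ₁ = ℓ₀ + 4 * Real.log d / δ + 2 * |M₀| + 2 * z₀' + 3 / h := ⟨_, rfl⟩
  refine ⟨max 3 (Real.exp ℓ₁), γ, le_max_left _ _, hγ, hγ1, ?_⟩
  intro w B hLaw M x hx
  have hX3 : 3 ≤ |(x : ℝ)| := (le_max_left _ _).trans hx
  have hX1 : Real.exp ℓ₁ ≤ |(x : ℝ)| := (le_max_right _ _).trans hx
  obtain ⟨ℓ, hℓ⟩ : ∃ ℓ : ℝ, ℓ = Real.log |(x : ℝ)| := ⟨_, rfl⟩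
  have hX0 : 0 < |(x : ℝ)| := by linarith
  have hXe : |(x : ℝ)| = Real.exp ℓ := by rw [hℓ, Real.exp_log hX0]
  have hl1 : ℓ₁ ≤ ℓ := by
    rw [hℓ, Real.le_log_iff_exp_le hX0]; exact hX1
  have p1 : 0 ≤ 4 * Real.log d / δ := by positivity
  have p2 : 0 ≤ 2 * |M₀| := by positivity
  have p3 : 0 ≤ 2 * z₀' := by linarith
  have p4 : 0 ≤ 3 / h := by positivity
  have l0 : ℓ₀ ≤ ℓ := by linarith
  have l1 : 1 ≤ ℓ := by linarith
  have l2 : 4 * Real.log d / δ ≤ ℓ := by linarith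
  have l3 : 2 * |M₀| ≤ ℓ := by linarith
  have l4 : 2 * z₀' ≤ ℓ := by linarith
  have l5 : 3 / h ≤ ℓ := by linarith
  have l6 : 4 * Real.log d ≤ ℓ * δ := by rwa [div_le_iff₀ hδ] at l2
  have l7 : 3 ≤ ℓ * h := by rwa [div_le_iff₀ hh] at l5
  have hℓ0 : 0 < ℓ := by linarith
  obtain ⟨k, hk⟩ : ∃ k : ℕ, k = ⌊κ * ℓ⌋₊ := ⟨_, rfl⟩
  have hkle : (k : ℝ) ≤ κ * ℓ := by rw [hk]; exact Nat.floor_le (by positivity)
  have hbk : b ^ k ≤ Real.exp (ℓ / 8) := by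
    rw [pow_eq_exp (by linarith) k]
    apply Real.exp_le_exp.2
    calc (k : ℝ) * Real.log b ≤ κ * ℓ * Real.log b := mul_le_mul_of_nonneg_right hkle hL
      _ = κ * Real.log b * ℓ := by ring
      _ ≤ 1 / 8 * ℓ := mul_le_mul_of_nonneg_right hκ2 (by linarith)
      _ = ℓ / 8 := by ring
  have hdk : (2 * d : ℝ) ^ k ≤ Real.exp (ℓ / 2) := by
    rw [pow_eq_exp (by linarith) k]
    apply Real.exp_le_exp.2
    calc (k : ℝ) * Real.log (2 * d) ≤ κ * ℓ * Real.log (2 * d) :=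
          mul_le_mul_of_nonneg_right hkle hD2.le
      _ = κ * Real.log (2 * d) * ℓ := by ring
      _ ≤ 1 / 2 * ℓ := mul_le_mul_of_nonneg_right hκ3 (by linarith)
      _ = ℓ / 2 := by ring
  have hexp2 : ℓ / 2 + 1 ≤ Real.exp (ℓ / 2) := Real.add_one_le_exp (ℓ / 2)
  have hY : ∀ y : ℤ, Real.exp (ℓ / 2) ≤ |(y : ℝ)| → |(y : ℝ)| ≤ Real.exp (2 * ℓ) →
      0 < |(y : ℝ)| ∧ ℓ / 2 ≤ Real.log |(y : ℝ)| ∧ Real.log |(y : ℝ)| ≤ 2 * ℓ ∧
      |(y : ℝ)| ^ (2 * δ) ≤ Real.exp (ℓ / 8) ∧ Real.exp (ℓ / 4) ≤ |(y : ℝ)| ^ (1 / 2 : ℝ) ∧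
      M₀ ≤ |(y : ℝ)| := by
    intro y hy1 hy2
    have q0 : 0 < |(y : ℝ)| := lt_of_lt_of_le (Real.exp_pos _) hy1
    have q1 : ℓ / 2 ≤ Real.log |(y : ℝ)| := by rw [Real.le_log_iff_exp_le q0]; exact hy1
    have q2 : Real.log |(y : ℝ)| ≤ 2 * ℓ := by rw [Real.log_le_iff_le_exp q0]; exact hy2
    refine ⟨q0, q1, q2, ?_, ?_, ?_⟩
    · rw [Real.rpow_def_of_pos q0]
      apply Real.exp_le_exp.2
      have h1 : Real.log |(y : ℝ)| * (2 * δ) ≤ 2 * ℓ * (2 * δ) :=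
        mul_le_mul_of_nonneg_right q2 (by linarith)
      have h2 : ℓ * δ ≤ ℓ * (1 / 32) := mul_le_mul_of_nonneg_left hδ' hℓ0.le
      linarith
    · rw [Real.rpow_def_of_pos q0]
      apply Real.exp_le_exp.2
      linarith
    · have := le_abs_self M₀
      linarith
  have hLoc : Loc w B h (4 / ℓ ^ 2) (Real.exp (ℓ / 2)) (Real.exp (2 * ℓ)) (Real.exp (ℓ / 4)) := by
    refine ⟨hLaw.nonneg, hLaw.mass, ?_⟩
    intro y hy1 hy2
    obtain ⟨q0, q1, q2, q3, q4, q5⟩ := hY y hy1 hy2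
    obtain ⟨B', w', s1, s2, s3, s4⟩ := hLaw.slow y q5
    refine ⟨B', w', ?_, s2, ?_, ?_⟩
    · have e : Real.exp (ℓ / 2) = Real.exp (ℓ / 8) * Real.exp (3 * ℓ / 8) := by
        rw [← Real.exp_add]; congr 1; ring
      have e2 : 1 ≤ h * Real.exp (3 * ℓ / 8) := by
        have e3 := Real.add_one_le_exp (3 * ℓ / 8)
        have e4 : h * (3 * ℓ / 8 + 1) ≤ h * Real.exp (3 * ℓ / 8) := mul_le_mul_of_nonneg_left e3 hh.le
        nlinarith
      have e5 : Real.exp (ℓ / 8) * 1 ≤ Real.exp (ℓ / 8) * (h * Real.exp (3 * ℓ / 8)) :=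
        mul_le_mul_of_nonneg_left e2 (Real.exp_pos _).le
      have e6 : h * Real.exp (ℓ / 2) = Real.exp (ℓ / 8) * (h * Real.exp (3 * ℓ / 8)) := by
        rw [e]; ring
      rw [e6]
      linarith
    · have e1 : 1 / (Real.log |(y : ℝ)|) ^ 2 ≤ 4 / ℓ ^ 2 := by
        have hpos : 0 < Real.log |(y : ℝ)| := by linarith
        rw [div_le_div_iff₀ (by positivity) (by positivity)]
        nlinarith
      linarith
    · intro x' hx'
      exact s4 x' (hx'.trans q4)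
  have hU : ∀ y : ℤ, Real.exp (ℓ / 2) ≤ |(y : ℝ)| → |(y : ℝ)| ≤ Real.exp (2 * ℓ) → ∃ i : ℕ, k ≤ i ∧
      (d : ℝ) ^ i * bb d m η ^ k ≤ Real.exp (ℓ / 4) ∧ d ^ i ≤ B y ∧
      ∀ u : ℤ, 0 ≤ u → u < (d : ℤ) ^ i → (A / 2 / ℓ) / (d : ℝ) ^ i ≤ w y u := by
    intro y hy1 hy2
    obtain ⟨q0, q1, q2, q3, q4, q5⟩ := hY y hy1 hy2
    obtain ⟨i, t1, t2, t3, t4⟩ := hLaw.unif y q5
    refine ⟨i, ?_, ?_, t3, ?_⟩
    · have h1 : δ * (ℓ / 2) ≤ δ * Real.log |(y : ℝ)| := mul_le_mul_of_nonneg_left q1 hδ.le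
      have h2 : (k : ℝ) * Real.log d ≤ κ * ℓ * Real.log d := mul_le_mul_of_nonneg_right hkle hD.le
      have h3 : κ * (4 * Real.log d) * ℓ ≤ δ * ℓ := mul_le_mul_of_nonneg_right hκ1 hℓ0.le
      have h4 : (k : ℝ) * Real.log d ≤ i * Real.log d := by nlinarith
      have h5 : (k : ℝ) ≤ i := le_of_mul_le_mul_right h4 hD
      exact_mod_cast h5
    · rw [← hb]
      calc (d : ℝ) ^ i * b ^ k ≤ Real.exp (ℓ / 8) * Real.exp (ℓ / 8) :=
            mul_le_mul (t2.trans q3) hbk (by positivity) (Real.exp_pos _).le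
        _ = Real.exp (ℓ / 4) := by rw [← Real.exp_add]; congr 1; ring
    · intro u hu1 hu2
      refine le_trans ?_ (t4 u hu1 hu2)
      apply div_le_div_of_nonneg_right _ (by positivity)
      have hpos : 0 < Real.log |(y : ℝ)| := by linarith
      rw [div_div, div_le_div_iff₀ (by linarith) hpos]
      exact mul_le_mul_of_nonneg_left q2 hA0.le
  have hz : z₀' ≤ Real.exp (ℓ / 2) := by linarith
  have hfac : ∀ j ∈ range d, fac d m η j ^ (1 / ℓ) ≤ bb d m η ^ (1 / ℓ) := by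
    intro j hj
    exact Real.rpow_le_rpow (fac_nonneg hR.pos hη j hj) (fac_le_bb hR.pos hη j hj) (by positivity)
  have c1 : (2 * d : ℝ) ^ k * Real.exp (ℓ / 2) ≤ |(x : ℝ)| := by
    rw [hXe]
    calc (2 * d : ℝ) ^ k * Real.exp (ℓ / 2) ≤ Real.exp (ℓ / 2) * Real.exp (ℓ / 2) :=
          mul_le_mul_of_nonneg_right hdk (Real.exp_pos _).le
      _ = Real.exp ℓ := by rw [← Real.exp_add]; congr 1; ring
  have c2 : |(x : ℝ)| * bb d m η ^ k ≤ Real.exp (2 * ℓ) := by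
    rw [hXe, ← hb]
    calc Real.exp ℓ * b ^ k ≤ Real.exp ℓ * Real.exp (ℓ / 8) :=
          mul_le_mul_of_nonneg_left hbk (Real.exp_pos _).le
      _ = Real.exp (ℓ + ℓ / 8) := by rw [← Real.exp_add]
      _ ≤ Real.exp (2 * ℓ) := Real.exp_le_exp.2 (by linarith)
  have key := hW w B (4 / ℓ ^ 2) (Real.exp (ℓ / 2)) (Real.exp (2 * ℓ)) (Real.exp (ℓ / 4)) hz
    (by positivity) hLoc M (1 / ℓ) (A / 2 / ℓ) (bb d m η ^ (1 / ℓ)) (by positivity)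
    (by rw [div_le_one hℓ0]; exact l1) (by positivity) (by rw [div_lt_one hℓ0]; linarith) hfac k hU k
    le_rfl x c1 c2
  have hgg := hg ℓ l0
  rw [← hk] at hgg
  rw [← hℓ, ← hk]
  have e1 : |(x : ℝ)| ^ (1 / ℓ) = Real.exp 1 := by
    rw [Real.rpow_def_of_pos hX0, ← hℓ]
    congr 1
    field_simp
  rw [e1] at key
  exact key.trans (mul_le_mul_of_nonneg_right hgg (Real.exp_pos 1).le)

end Pool.Agent.U612.DZB
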